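import Mathlib
import Pool.Agent.H172Z.Stick.Defs
import Pool.Agent.H172Z.Stick.Main

/-!
Superclub implies that some inseparable family has no Luzin subsequence.
-/

namespace Pool.Agent.Results.MP_a36908_lc.ASuperclubYes

open Pool.Agent.H172Z.Stick

theorem result : Superclub → ∃ A : W1 → Set ℕ, Inseparable A ∧ ¬ HasLuzinSubsequence A :=
  main

end Pool.Agent.Results.MP_a36908_lc.ASuperclubYes
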